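import Pool.Agent.Q44.MX.Facts
import Pool.Agent.Q44.MX.ChrM
import Pool.Agent.Q44.MX.Hr
import Pool.Agent.Q44.LD.FactsT

/-!
# The multiplicities of all the characters of the Galois group of `ℚ(√-1, √p : p ∣ N)` in the points of an elliptic curve

Let `E` be an elliptic curve `y ^ 2 = (x - a 0) (x - a 1) (x - a 2)` over `ℚ` with different integers
`a i` of sum 0 (`IsModel`; every elliptic curve over `ℚ` with full rational 2-torsion has such an
equation). For an integer `n ≥ 1` let `F_n` be the field generated by the square roots of `-1` and of all the prime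
divisors of `n`; it is a Galois extension of `ℚ` of degree `2 · 2 ^ ω(n)`, and all the irreducible
representations `ρ` of its Galois group are homomorphisms `χ` to `{±1}`, so they are self-dual and their number
is also `2 · 2 ^ ω(n)`. Let `m_χ(E)` be the multiplicity of `χ` in `E(F_n) ⊗ ℂ`.

**The theorem.** There is *one* set `𝒩` of positive integers `N` of natural density one (with
`ω(N) = (1 + o(1)) log log N`) such that for *all* these curves `E`, all `M ≥ 1`, all `ε > 0` and all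
sufficiently large `N` in `𝒩` the following holds for *all* the characters `χ` of `Gal(F_{M N} / ℚ)`, where
`κ = 1` if `E` has no rational cyclic subgroup of order 4 and `κ = 2` otherwise.

(1) *All* the multiplicities satisfy `m_χ(E) ≤ (√(2 κ) + ε) √ω(N)`, and for *every* `k` the number
of the `χ` with `m_χ(E) ≥ k` is at most `2 ^ ((1 + ε) ω(N) - k ^ 2 / (2 κ))`.

(2) If `E` has no rational cyclic subgroup of order 4 then for *every* nondecreasing function `f` with
`|f(e)| ≤ C ^ (1 + e)` the mean of `f(m_χ(E))` over the characters `χ` is at most the mean of `f` for the law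
`p(e) = (β / 2) 2 ^ e / ((2 - 1) (2 ^ 2 - 1) ⋯ (2 ^ e - 1))`, `β = ∏_{i ≥ 0} (1 - 2 ^ (- 2 i - 1))`, plus `ε`. In
particular the average of the multiplicities is at most 1.2646, the average of `2 ^ (j m_χ(E))` is at
most `∏_{i ≤ j} (1 + 2 ^ i) + ε`, and at least 20.97 percent of the characters do not occur in `E(F_{M N}) ⊗ ℂ`.

So the minimalist conjecture for Artin twists (all `m_χ(E)` are 0 or 1 for 100 percent of the pairs) holds up to
these bounds for one fixed curve and 100 percent of the large fields of this kind, in contrast to the averages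
over all curves for a fixed field.

Idea of the proof: `m_χ(E)` is the rank of the quadratic twist by the divisor of `M N` which belongs to `χ`, and is
bounded by its 2-Selmer rank. The Selmer groups of all these twists are kernels of matrices in the quadratic residue
symbols between the prime divisors of `N`, whose joint distribution for almost all `N` is that of independent
symbols up to small errors.
-/

set_option autoImplicit false
set_option linter.all false

namespace Pool.Agent.Results.MP_775b3b_nt.CharactersOfLargeFields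

open Filter Topology WeierstrassCurve
open scoped Classical

/-! ### The curves -/

/-- The curve `y ^ 2 = (x - a 0) (x - a 1) (x - a 2)` over the rationals, for `a 0 + a 1 + a 2 = 0`. -/
def curve (a : Fin 3 → ℤ) : WeierstrassCurve ℚ :=
  ⟨0, 0, 0, ((a 0 * a 1 + a 0 * a 2 + a 1 * a 2 : ℤ) : ℚ), ((-(a 0 * a 1 * a 2) : ℤ) : ℚ)⟩

/-- The three roots are different and their sum is 0. -/
structure IsModel (a : Fin 3 → ℤ) : Prop where
  distinct : Function.Injective a
  sum : a 0 + a 1 + a 2 = 0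

/-- The product of the differences of one root with the two others is not a square: the curve has no rational
cyclic subgroup of order 4. -/
def NoCyclicFour (a : Fin 3 → ℤ) : Prop :=
  ∀ i j l, i ≠ j → i ≠ l → j ≠ l → ∀ s : ℤ, (a i - a j) * (a i - a l) ≠ s ^ 2

/-! ### The characters -/

/-- The homomorphisms from the Galois group of `F` over `ℚ` to `{±1}`. -/
abbrev Characters (F : Type) [Field F] [NumberField F] : Type := (F ≃ₐ[ℚ] F) →* ℤˣ

/-- The group of the points `P` of `W` over `F` with `σ P = χ(σ) P` for all `σ`. -/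
noncomputable def Part (F : Type) [Field F] [NumberField F] (χ : Characters F)
    (W : WeierstrassCurve ℚ) : AddSubgroup (W.baseChange F).toAffine.Point where
  carrier := {P | ∀ σ : F ≃ₐ[ℚ] F, Affine.Point.map (W' := W.toAffine) (σ : F →ₐ[ℚ] F) P =
    ((χ σ : ℤˣ) : ℤ) • P}
  zero_mem' := fun σ => by rw [map_zero, smul_zero]
  add_mem' := fun {P Q} hP hQ σ => by rw [map_add, hP σ, hQ σ, smul_add]
  neg_mem' := fun {P} hP σ => by rw [map_neg, hP σ, smul_neg]

/-- The multiplicity of `χ` in `W(F) ⊗ ℂ`: the rank of `Part F χ W`. -/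
noncomputable def mult (F : Type) [Field F] [NumberField F] (χ : Characters F)
    (W : WeierstrassCurve ℚ) : ℕ := Module.finrank ℤ (Part F χ W)

/-! ### The law -/

/-- The infinite product of the numbers `1 - 2 ^ (- 2 i - 1)`, `i ≥ 0`. -/
noncomputable def beta : ℝ := ∏' i : ℕ, (1 - (1 / 2 : ℝ) ^ (2 * i + 1))

/-- The probability of `e` in the law `p`. -/
noncomputable def law (e : ℕ) : ℝ :=
  beta / 2 * (2 ^ e / ∏ i ∈ Finset.range e, ((2 : ℝ) ^ (i + 1) - 1))

/-! ### The fields -/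

/-- The number of the prime divisors of `n`. -/
def omega (n : ℕ) : ℕ := n.primeFactors.card

/-- The prime divisors of `n`. -/
def PrimeDivisors (n : ℕ) : Set ℤ := {b | ∃ p : ℕ, p.Prime ∧ p ∣ n ∧ b = p}

/-- The set of integers has natural density one. -/
def DensityOne (𝒩 : ℕ → Prop) : Prop :=
  Tendsto (fun X : ℕ => (Nat.card {N : ℕ // 1 ≤ N ∧ N ≤ X ∧ 𝒩 N} : ℝ) / X) atTop (𝓝 1)

/-- The number field `F` is generated by square roots of the elements of `A`. -/
def GeneratedBy (F : Type) [Field F] [NumberField F] (A : Set ℤ) : Prop :=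
  ∃ x : ℤ → F, (∀ b ∈ A, x b ^ 2 = (b : F)) ∧ IntermediateField.adjoin ℚ (x '' A) = ⊤

/-- `F` is the field generated by the square roots of `-1` and of all the prime divisors of `n`. -/
def IsField (F : Type) [Field F] [NumberField F] (n : ℕ) : Prop :=
  GeneratedBy F (insert (-1) (PrimeDivisors n))

/-! ### Comparison with the definitions of the proof -/

section comparison

open Q44.LD

theorem law_eq : law = Pool.Agent.Q269.SL.law2 := by
  funext e
  rw [Pool.Agent.Q269.SL.law2_eq]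
  rfl

theorem mz {a : Fin 3 → ℤ} (h : IsModel a) : Q44.MX.Mz a := ⟨h.distinct, h.sum⟩

theorem mdl {a : Fin 3 → ℤ} (h : IsModel a) (h4 : NoCyclicFour a) : Mdl a :=
  ⟨h.distinct, h.sum, h4⟩

theorem prime_eq {n : ℕ} (hn : n ≠ 0) : PrimeDivisors n = (Pz (rad n) : Finset ℤ) := by
  ext b
  rw [Finset.mem_coe, mem_Pz (rad_pos n).ne']
  refine exists_congr fun p => and_congr_right fun hp => and_congr_left fun _ => ?_
  exact (dvd_rad hn hp.squarefree).symm

theorem genA {F : Type} [Field F] [NumberField F] {n : ℕ} (hn : n ≠ 0) (h : IsField F n) :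
    GenA F (insert (-1) (Pz (rad n)) : Finset ℤ) := by
  unfold IsField at h
  rw [prime_eq hn] at h
  rw [Finset.coe_insert]
  exact h

theorem mult_eq {F : Type} [Field F] [NumberField F] (χ : Characters F) (a : Fin 3 → ℤ) :
    mult F χ (curve a) = Q44.MX.mul F χ a := rfl

end comparison

theorem result :
    (HasSum law 1 ∧ 0.2097 < law 0 ∧ ∑' e : ℕ, law e * e < 1.26455 ∧
      ∀ j : ℕ, ∑' e : ℕ, law e * 2 ^ (j * e) = ∏ i ∈ Finset.range j, (1 + (2 : ℝ) ^ (i + 1))) ∧
    ∃ 𝒩 : ℕ → Prop, DensityOne 𝒩 ∧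
      (∀ ε : ℝ, 0 < ε → ∀ᶠ N : ℕ in atTop, 𝒩 N →
        |(omega N : ℝ) - Real.log (Real.log N)| ≤ ε * Real.log (Real.log N)) ∧
      (∀ a : Fin 3 → ℤ, IsModel a → ∀ κ : ℝ, (κ = 2 ∨ (κ = 1 ∧ NoCyclicFour a)) →
        ∀ M : ℕ, M ≠ 0 → ∀ ε : ℝ, 0 < ε → ∀ᶠ N : ℕ in atTop, 𝒩 N →
        ∀ (F : Type) [Field F] [NumberField F], IsField F (M * N) →
          IsGalois ℚ F ∧ Module.finrank ℚ F = 2 * 2 ^ omega (M * N) ∧
          Nat.card (Characters F) = 2 * 2 ^ omega (M * N) ∧
          (∀ χ : Characters F, (mult F χ (curve a) : ℝ) ≤ (√(2 * κ) + ε) * √(omega N : ℝ)) ∧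
          (∀ k : ℕ, (Nat.card {χ : Characters F // k ≤ mult F χ (curve a)} : ℝ) ≤
            (2 : ℝ) ^ ((1 + ε) * (omega N : ℝ) - (k : ℝ) ^ 2 / (2 * κ)))) ∧
      (∀ a : Fin 3 → ℤ, IsModel a → NoCyclicFour a → ∀ M : ℕ, M ≠ 0 → ∀ C ε : ℝ, 0 ≤ C → 0 < ε →
        ∀ᶠ N : ℕ in atTop, 𝒩 N → ∀ (F : Type) [Field F] [NumberField F], IsField F (M * N) →
          (∀ f : ℕ → ℝ, Monotone f → (∀ e, |f e| ≤ C ^ (1 + e)) →
            (∑ᶠ χ : Characters F, f (mult F χ (curve a))) / Nat.card (Characters F) ≤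
              ∑' e : ℕ, f e * law e + ε) ∧
          (∑ᶠ χ : Characters F, (mult F χ (curve a) : ℝ)) / Nat.card (Characters F) ≤ 1.2646 ∧
          0.2097 ≤ (Nat.card {χ : Characters F // mult F χ (curve a) = 0} : ℝ) /
            Nat.card (Characters F)) := by
  have H := Q44.LD.F.factsZ
  have HS := Q44.LD.F.factsS
  have HM : Q44.MX.FactsM := Q44.MX.factsM
  have hl0 : law 0 = Pool.Agent.Q269.MF.bet / 2 := by
    unfold law
    rw [Finset.range_zero, Finset.prod_empty, pow_zero, div_one, mul_one]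
    rfl
  have hb0 := Q44.LD.bet_gt
  have hmu := Q44.LD.Mu_id
  refine ⟨⟨?_, ?_, ?_, fun j => ?_⟩, ?_⟩
  · rw [law_eq]
    have h1 := ((Q44.JQ.M.hasSum_lawc 0).add (Q44.JQ.M.hasSum_lawc 1)).div_const 2
    have h2 : (fun e => (Q44.JQ.lawc 0 e + Q44.JQ.lawc 1 e) / 2) = Pool.Agent.Q269.SL.law2 :=
      funext Q44.LD.law_half
    rw [h2] at h1
    norm_num at h1
    exact h1
  · rw [hl0]
    linarith
  · have h1 := hmu
    unfold Q44.LD.Mu at h1
    rw [law_eq]
    simp only [mul_comm] at h1 ⊢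
    exact h1
  · have h1 := Q44.LD.Mu_exp j
    unfold Q44.LD.Mu at h1
    rw [law_eq, ← h1]
    exact tsum_congr fun e => mul_comm _ _
  obtain ⟨𝒟₁, e1, -, g3⟩ := Q44.MX.fin_MX H HM
  obtain ⟨𝒟₂, e2, e3⟩ := Q44.MX.hr_set
  obtain ⟨𝒟₃, e4, -, e5⟩ := Q44.LD.one_GM H
  obtain ⟨𝒩, h𝒩⟩ : ∃ 𝒩 : ℕ → Prop, 𝒩 = fun N => 𝒟₁ N ∧ 𝒟₂ N ∧ 𝒟₃ N := ⟨_, rfl⟩
  have g1 : Q155.NL.Alm (fun _ => True) 𝒩 := by
    rw [h𝒩]
    exact Q155.NL.alm_and e1 (Q155.NL.alm_and e2 e4)
  have g4 : ∀ N, 𝒩 N → 𝒟₁ N ∧ 𝒟₂ N ∧ 𝒟₃ N := fun N h => by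
    rw [h𝒩] at h
    exact h
  refine ⟨𝒩, Q44.LD.alm_density g1, fun ε hε => ?_, ?_, ?_⟩
  · filter_upwards [e3 ε hε] with N h hN
    exact h (g4 N hN).2.1
  · intro a ha κ hκ M hM ε hε
    filter_upwards [(g3 a (mz ha)).1 κ hκ M hM ε hε, eventually_ne_atTop 0] with N h1 hN hN' F _ _ hF
    obtain ⟨h2, h3⟩ := h1 (g4 N hN').1
    have hMN : M * N ≠ 0 := mul_ne_zero hM hN
    have hG := genA hMN hF
    have hsq := Q44.LD.rad_sq (M * N)
    have hc : (Q44.LD.sd (Q44.LD.rad (M * N))).card = 2 * 2 ^ omega (M * N) := by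
      rw [Q44.LD.card_sd hsq.ne_zero, Q44.LD.card_div hsq, Q44.LD.rad_pf]
      rfl
    refine ⟨Q44.MX.gal_A hG, ?_, ?_, fun χ => ?_, fun k => ?_⟩
    · rw [Q44.LD.deg_of hG Q44.LD.ind_Pz', Q44.LD.card_Pz', Q44.LD.rad_pf, pow_succ, mul_comm]
      rfl
    · rw [← hc]
      exact Q44.MX.chr_card H (mz ha) hsq hG
    · obtain ⟨e, he⟩ := Q44.MX.chr_equiv H (mz ha) hsq hG
      exact (Nat.cast_le.2 (he χ)).trans (h3 _ (e χ).2)
    · exact (Nat.cast_le.2 (Q44.MX.chr_up H (mz ha) hsq hG k)).trans (h2 k)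
  · intro a ha h4 M hM C ε hC hε
    have hm := mdl ha h4
    have hC2 : (0 : ℝ) ≤ max C 2 := le_max_of_le_left hC
    obtain ⟨δ, hδ0, hδ1, hδ3, hδ4⟩ : ∃ δ : ℝ, 0 < δ ∧ δ ≤ ε ∧ δ ≤ 0.00002 ∧ δ ≤ law 0 - 0.2097 := by
      refine ⟨min ε (min 0.00002 (law 0 - 0.2097)),
        lt_min hε (lt_min (by norm_num) (by linarith)), min_le_left _ _,
        (min_le_right _ _).trans (min_le_left _ _),
        (min_le_right _ _).trans (min_le_right _ _)⟩
    filter_upwards [e5 a hm M hM (max C 2) δ hC2 hδ0, eventually_ne_atTop 0] with N h3 hN hN' F _ _ hF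
    have hGM := h3 (g4 N hN').2.2
    have hMN : M * N ≠ 0 := mul_ne_zero hM hN
    have hG := genA hMN hF
    have hsq := Q44.LD.rad_sq (M * N)
    have hR := (Q44.LD.rad_pos (M * N)).ne'
    have hcard := Q44.MX.chr_card H (mz ha) hsq hG
    have hcs : (0 : ℝ) < (Q44.LD.sd (Q44.LD.rad (M * N))).card := by
      rw [Q44.LD.card_sd hR]
      have : 0 < 2 * (Q44.LD.rad (M * N)).divisors.card :=
        Nat.mul_pos two_pos (Finset.card_pos.2 ⟨1, Nat.one_mem_divisors.2 hR⟩)
      exact_mod_cast this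
    have hlaw : ∀ (C' : ℝ) (f : ℕ → ℝ), 0 ≤ C' → C' ≤ max C 2 → (∀ e, |f e| ≤ C' ^ (1 + e)) →
        |(∑ d ∈ Q44.LD.sd (Q44.LD.rad (M * N)), f (Q44.LD.wr a d)) /
          ((Q44.LD.sd (Q44.LD.rad (M * N))).card : ℝ) - ∑' e : ℕ, f e * law e| ≤ δ := by
      intro C' f hC' hCC hf
      have h5 := hGM.law H HS hM hN hC2 (f := f) fun e => (hf e).trans (pow_le_pow_left₀ hC' hCC _)
      rw [law_eq]
      have h6 : (∑ d ∈ Q44.LD.sd (Q44.LD.rad (M * N)), f (Q44.LD.wr a d)) /
          ((Q44.LD.sd (Q44.LD.rad (M * N))).card : ℝ) -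
            ∑' e : ℕ, f e * Pool.Agent.Q269.SL.law2 e =
          (∑ d ∈ Q44.LD.sd (Q44.LD.rad (M * N)), f (Q44.LD.wr a d) -
            (Q44.LD.sd (Q44.LD.rad (M * N))).card * Q44.LD.Mu f) /
              (Q44.LD.sd (Q44.LD.rad (M * N))).card := by
        rw [sub_div, mul_div_cancel_left₀ _ hcs.ne']
        rfl
      rw [h6, abs_div, abs_of_pos hcs, div_le_iff₀ hcs]
      exact h5
    have hmono : ∀ f : ℕ → ℝ, Monotone f →
        (∑ᶠ χ : Characters F, f (mult F χ (curve a))) / Nat.card (Characters F) ≤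
          (∑ d ∈ Q44.LD.sd (Q44.LD.rad (M * N)), f (Q44.LD.wr a d)) /
            ((Q44.LD.sd (Q44.LD.rad (M * N))).card : ℝ) := by
      intro f hf
      have h5 : ((Nat.card (Characters F) : ℕ) : ℝ) = (Q44.LD.sd (Q44.LD.rad (M * N))).card := by
        exact_mod_cast hcard
      rw [h5]
      exact div_le_div_of_nonneg_right (Q44.MX.chr_sum H (mz ha) hsq hG hf) hcs.le
    refine ⟨fun f hf hfb => ?_, ?_, ?_⟩
    · have h5 := (abs_le.1 (hlaw C f hC (le_max_left _ _) hfb)).2
      have h6 := hmono f hf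
      linarith
    · have h5 := (abs_le.1 (hlaw 2 (fun e => (e : ℝ)) (by norm_num) (le_max_right _ _)
        fun e => Q44.LD.id_bd le_rfl e)).2
      have h6 : ∑' e : ℕ, (e : ℝ) * law e = Q44.LD.Mu fun e => (e : ℝ) := by
        rw [law_eq]
        rfl
      rw [h6] at h5
      have h7 := hmono (fun e => (e : ℝ)) fun m n hmn => Nat.cast_le.2 hmn
      linarith
    · have h5 := (abs_le.1 (hlaw 1 (fun e => if e = 0 then 1 else 0) (by norm_num)
        ((by norm_num : (1 : ℝ) ≤ 2).trans (le_max_right _ _)) fun e => by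
          rw [one_pow]
          split_ifs
          · rw [abs_one]
          · rw [abs_zero]
            exact zero_le_one)).1
      have h6 : ∑' e : ℕ, (if e = 0 then (1 : ℝ) else 0) * law e = law 0 := by
        rw [tsum_eq_single 0 fun e he => by rw [if_neg he, zero_mul], if_pos rfl, one_mul]
      rw [h6, Finset.sum_boole] at h5
      have h7 : (((Q44.LD.sd (Q44.LD.rad (M * N))).filter fun d => Q44.LD.wr a d = 0).card : ℝ) ≤
          Nat.card {χ : Characters F // mult F χ (curve a) = 0} :=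
        Nat.cast_le.2 (Q44.MX.chr_zero H (mz ha) hsq hG)
      have h8 : ((Nat.card (Characters F) : ℕ) : ℝ) = (Q44.LD.sd (Q44.LD.rad (M * N))).card := by
        exact_mod_cast hcard
      rw [h8]
      have h9 := div_le_div_of_nonneg_right h7 hcs.le
      linarith

end Pool.Agent.Results.MP_775b3b_nt.CharactersOfLargeFields
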