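import Mathlib
import Pool.Agent.Q269.CharFour.Avg
import Pool.Agent.Q269.IsoFour.Four

/-!
# The multiplicities of the characters of 2-power order in `E(F) ⊗ ℂ` for the curves with a rational
cyclic subgroup of order 4

Let `F` be a cyclotomic field and `χ ≠ 1` a homomorphism of its Galois group to `ℂˣ` whose order is
a power of two. The average of `4 ^ m_χ(E)` over the elliptic curves `E` over `ℚ` with a rational
cyclic subgroup of order 4 and height at most `H` is bounded as `H` varies, where `m_χ(E)` is the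
multiplicity of `χ` in `E(F) ⊗ ℂ`.
-/

set_option autoImplicit false

namespace Pool.Agent.Results.MP_775b3b_nt.CyclicFourCharacters

open Filter Topology WeierstrassCurve TensorProduct

/-- the curve `y² = x³ + A x + B` over the field `K` -/
def E (K : Type) [Field K] (A B : ℤ) : WeierstrassCurve K := ⟨0, 0, 0, (A : K), (B : K)⟩

/-- There is a complex point `P` of order 4 with a rational abscissa on `y² = x³ + A x + B`. As the
elements of order 4 of the group generated by `P` are `P` and `-P`, and these are the points of the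
curve with the abscissa of `P`, this says that the cyclic group of order 4 generated by `P` is
stable under the Galois group, so that it is a rational cyclic subgroup of order 4 of the curve. -/
def HasCyclicFour (c : ℤ × ℤ) : Prop :=
  ∃ (x : ℚ) (y : ℂ) (h : (E ℂ c.1 c.2).toAffine.Nonsingular (x : ℂ) y),
    addOrderOf (WeierstrassCurve.Affine.Point.some (x : ℂ) y h) = 4

/-- The pairs `(A, B)` of integers such that `4 A³ + 27 B² ≠ 0`, there is no prime `p` with
`p⁴ ∣ A` and `p⁶ ∣ B`, the curve `y² = x³ + A x + B` has a rational cyclic subgroup of order 4, and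
the height `max (4 |A|³) (27 B²)` is at most `H`. Every elliptic curve over `ℚ` with a rational
cyclic subgroup of order 4 is isomorphic to `E ℚ A B` for exactly one pair with the first three
properties. -/
def Fam (H : ℕ) : Set (ℤ × ℤ) :=
  {c : ℤ × ℤ | 4 * c.1 ^ 3 + 27 * c.2 ^ 2 ≠ 0 ∧
    (∀ p : ℕ, p.Prime → ¬ ((p : ℤ) ^ 4 ∣ c.1 ∧ (p : ℤ) ^ 6 ∣ c.2)) ∧
    HasCyclicFour c ∧ 4 * |c.1| ^ 3 ≤ H ∧ 27 * c.2 ^ 2 ≤ H}

open Classical in
/-- The subspace of the vectors `v` of `ℂ ⊗ W(F)` with `σ v = χ(σ) v` for all `σ`. -/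
noncomputable def Part (F : Type) [Field F] [NumberField F] (χ : (F ≃ₐ[ℚ] F) →* ℂˣ)
    (W : WeierstrassCurve ℚ) : Submodule ℂ (ℂ ⊗[ℤ] (W.baseChange F).toAffine.Point) where
  carrier := {v | ∀ σ : F ≃ₐ[ℚ] F, LinearMap.baseChange ℂ
    (Affine.Point.map (W' := W.toAffine) (σ : F →ₐ[ℚ] F)).toIntLinearMap v = ((χ σ : ℂˣ) : ℂ) • v}
  zero_mem' := fun σ => by rw [map_zero, smul_zero]
  add_mem' := fun {v w} hv hw σ => by rw [map_add, hv σ, hw σ, smul_add]
  smul_mem' := fun c v hv σ => by rw [map_smul, hv σ, smul_comm]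

open Classical in
/-- The multiplicity of the one-dimensional representation `χ` in `E(F) ⊗ ℂ`. -/
noncomputable def mult (F : Type) [Field F] [NumberField F] (χ : (F ≃ₐ[ℚ] F) →* ℂˣ)
    (W : WeierstrassCurve ℚ) : ℕ :=
  Module.finrank ℂ (Part F χ W)

/-! ### Proofs -/

open Pool.Agent.Q269.IsoFour (F4)

lemma Fam_eq (H : ℕ) : Fam H = (F4 H : Set (ℤ × ℤ)) := by
  ext c
  rw [Finset.mem_coe, Pool.Agent.Q269.IsoFour.mem_F4]
  constructor
  · rintro ⟨h1, h2, h3, h4, h5⟩
    exact ⟨h1, ⟨h4, h5⟩, h2, (Pool.Agent.Q269.IsoFour.has4_iff h1).1 h3⟩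
  · rintro ⟨h1, ⟨h4, h5⟩, h2, h3⟩
    exact ⟨h1, h2, (Pool.Agent.Q269.IsoFour.has4_iff h1).2 h3, h4, h5⟩

/-- **Theorem.** The number of the elliptic curves over `ℚ` of height at most `H` with a rational
cyclic subgroup of order 4 is finite and tends to infinity with `H`. Let `F = ℚ(ζ_N)` and let
`χ : Gal(F/ℚ) → ℂˣ` be a nontrivial homomorphism with `χ ^ (2 ^ k)` trivial for some `k`. There is
a constant `C` such that for all `H` the average of `4 ^ m_χ(E)` over these curves `E` of height at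
most `H` is at most `C`, and the proportion of those with `m_χ(E) ≥ n` is at most `C / 4 ^ n`. -/
theorem result :
    ((∀ H : ℕ, (Fam H).Finite) ∧ Tendsto (fun H : ℕ => (Fam H).ncard) atTop atTop) ∧
    ∀ (N : ℕ) [NeZero N] (F : Type) [Field F] [NumberField F] [IsCyclotomicExtension {N} ℚ F]
      (χ : (F ≃ₐ[ℚ] F) →* ℂˣ), (∃ σ, χ σ ≠ 1) → (∃ k : ℕ, ∀ σ, χ σ ^ (2 ^ k) = 1) →
    ∃ C : ℝ, ∀ H : ℕ,
      ∑ᶠ c ∈ Fam H, (4 : ℝ) ^ mult F χ (E ℚ c.1 c.2) ≤ C * (Fam H).ncard ∧
      ∀ n : ℕ, ((Fam H ∩ {c | n ≤ mult F χ (E ℚ c.1 c.2)}).ncard : ℝ) ≤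
        C * (Fam H).ncard / 4 ^ n := by
  classical
  refine ⟨⟨fun H => by rw [Fam_eq]; exact Finset.finite_toSet _, ?_⟩, ?_⟩
  · obtain ⟨c, C, hc, -, h⟩ := Pool.Agent.Q269.IsoFour.count_F4
    have h1 : Tendsto (fun H : ℕ => c * (H : ℝ) ^ ((1 : ℝ) / 3)) atTop atTop :=
      ((tendsto_rpow_atTop (by norm_num)).comp tendsto_natCast_atTop_atTop).const_mul_atTop hc
    have h2 : Tendsto (fun H : ℕ => ((Fam H).ncard : ℝ)) atTop atTop := by
      refine tendsto_atTop_mono' _ ?_ h1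
      filter_upwards [h] with H hH
      rw [Fam_eq, Set.ncard_coe_finset]
      exact hH.1
    exact tendsto_natCast_atTop_iff.1 h2
  · rintro N _ F _ _ _ χ hχ ⟨k, hk⟩
    obtain ⟨C, hC0, hC⟩ := Pool.Agent.Q269.CharFour.avg_char N F χ hχ k hk
    refine ⟨C, fun H => ?_⟩
    have h2 : ∑ᶠ c ∈ Fam H, (4 : ℝ) ^ mult F χ (E ℚ c.1 c.2) =
        ∑ c ∈ F4 H, (4 : ℝ) ^ mult F χ (E ℚ c.1 c.2) := by
      rw [Fam_eq, finsum_mem_coe_finset]
    have h4 : ((Fam H).ncard : ℝ) = (F4 H).card := by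
      rw [Fam_eq, Set.ncard_coe_finset]
    have h5 : ∑ c ∈ F4 H, (4 : ℝ) ^ mult F χ (E ℚ c.1 c.2) ≤ C * (F4 H).card := hC H
    rw [h2, h4]
    refine ⟨h5, fun n => ?_⟩
    have e1 : Fam H ∩ {c | n ≤ mult F χ (E ℚ c.1 c.2)} =
        (((F4 H).filter (fun c => n ≤ mult F χ (E ℚ c.1 c.2)) : Finset (ℤ × ℤ)) :
          Set (ℤ × ℤ)) := by
      rw [Fam_eq]
      ext c
      simp
    rw [e1, Set.ncard_coe_finset, le_div_iff₀ (by positivity)]
    refine le_trans ?_ h5
    calc (((F4 H).filter (fun c => n ≤ mult F χ (E ℚ c.1 c.2))).card : ℝ) * 4 ^ n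
        = ∑ c ∈ (F4 H).filter (fun c => n ≤ mult F χ (E ℚ c.1 c.2)), (4 : ℝ) ^ n := by
          rw [Finset.sum_const, nsmul_eq_mul]
      _ ≤ ∑ c ∈ (F4 H).filter (fun c => n ≤ mult F χ (E ℚ c.1 c.2)),
          (4 : ℝ) ^ mult F χ (E ℚ c.1 c.2) := by
          apply Finset.sum_le_sum
          intro c hc
          rw [Finset.mem_filter] at hc
          exact pow_le_pow_right₀ (by norm_num) hc.2
      _ ≤ ∑ c ∈ F4 H, (4 : ℝ) ^ mult F χ (E ℚ c.1 c.2) :=
          Finset.sum_le_sum_of_subset_of_nonneg (Finset.filter_subset _ _)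
            (fun c _ _ => by positivity)

end Pool.Agent.Results.MP_775b3b_nt.CyclicFourCharacters
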