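import Pool.Agent.Q283.IN.H

/-!
# The rank conjecture over all the subfields of an infinite multiquadratic field generated by the square
# roots of a set of primes of positive density, for exactly 42 percent of the twists of `X_0(49)`

`E_D : y² = x³ - 2835 D² x - 71442 D³` is the quadratic twist by `D` of the curve `X_0(49)`; the class
consists of the squarefree positive integers `D` whose prime factors are `1` modulo `4`. Let
`m_1, …, m_M` be different numbers of the class. The `D` of the class such that all the curves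
`E_{m_k D}` have finitely many rational points and no element of order two in the Tate-Shafarevich
group have exactly the proportion `κ ^ M`, `κ = ∏ (1 - 2 ^ (-2 i - 1)) = 0.4194…` (see
`MP_8b7eba_nt.OneModFourTwists`). Let `D` be one of them, `N = m_1 ⋯ m_M D`.

A prime `r ∤ N` is called neutral if `r` is `1` modulo `4` and inert in `ℚ(√-7)`, and the primes of `N`
which split in `ℚ(√-7)` are squares modulo `r`. It is proved:

* The neutral primes have the natural density `2 ^ (-s)`, `s` the number of the primes of `N` which split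
  in `ℚ(√-7)`, in the set of all the primes `r ≡ 1 mod 4` inert in `ℚ(√-7)`.
* Let `L ⊆ ℝ` be the infinite extension of `ℚ` generated by the square roots of all the neutral primes.
  Each of the groups `E_{m_k D}(L)` has exactly two elements.
* For all the finite extensions `K = ℚ(√d_1, …, √d_n)` of `ℚ` in `L`, the `d_i` products of neutral primes
  (up to squares), and for all `k`: `E_{m_k D}(K)` has exactly two elements, `L(E_{m_k D}/K, s)` is entire
  and not zero at `s = 1`, and `Ш(E_{m_k D}/K)[2^∞]` is finite and killed by `2 ^ n`.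

So there are infinite extensions of `ℚ`, generated by the square roots of a set of primes of positive
density, over all the finite subextensions of which the conjecture holds for several curves at once,
and over which these curves have only two points; over the field generated by the square roots of all
the primes an elliptic curve over `ℚ` has infinite rank (Frey and Jarden).

The proof. The matrix over `𝔽₂` whose nonsingularity is the criterion for `E_D` does not change when `D` is
multiplied by neutral primes. The torsion: a point of a twist of rank zero over `ℚ` is integral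
(Nagell-Lutz) and then it is of order two (reduction modulo three); over a multiquadratic field by
induction over the quadratic steps, since `√7` and `√-7` do not belong to the field.
-/

set_option autoImplicit false

open Finset Filter NumberField IsDedekindDomain

namespace Pool.Agent.Results.MP_775b3b_nt.InfiniteMultiquadraticFields

/-- coefficients of the twist `E_D : y² = x³ + A D x + B D` of `X_0(49)` -/
def A (D : ℤ) : ℤ := -2835 * D ^ 2

/-- coefficients of the twist `E_D : y² = x³ + A D x + B D` of `X_0(49)` -/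
def B (D : ℤ) : ℤ := -71442 * D ^ 3

/-- the curve `E_D` over the field `K` -/
def E (K : Type) [Field K] (D : ℤ) : WeierstrassCurve K :=
  { a₁ := 0, a₂ := 0, a₃ := 0, a₄ := (A D : K), a₆ := (B D : K) }

open Classical in
/-- the number of the points of `E_D` over `K`, the point at infinity included (`0` if it is
infinite) -/
noncomputable def numPoints (K : Type) [Field K] (D : ℤ) : ℕ := Nat.card (E K D).toAffine.Point

/-- `E_D(ℚ)` is finite and `Ш(E_D/ℚ)` has no element of order two -/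
def Good (D : ℤ) : Prop :=
  Finite (E ℚ D).toAffine.Point ∧ ∀ x : Pool.Agent.TH841.SH.D.Sha (E ℚ D), 2 • x = 0 → x = 0

/-- the class: squarefree, all prime factors `1` modulo `4` -/
def Class (D : ℕ) : Prop := Squarefree D ∧ ∀ p : ℕ, p.Prime → p ∣ D → p % 4 = 1

/-- the primes which are `1` modulo `4` and inert in `ℚ(√-7)` -/
def Inert (r : ℕ) : Prop := r.Prime ∧ r % 4 = 1 ∧ (r % 7 = 3 ∨ r % 7 = 5 ∨ r % 7 = 6)

/-- the prime factors of `N` which split in `ℚ(√-7)`, if they are `1` modulo `4` -/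
def splitPart (N : ℕ) : Finset ℕ := N.primeFactors.filter fun p => p % 7 = 1 ∨ p % 7 = 2 ∨ p % 7 = 4

/-- the neutral primes of `N` -/
def Neutral (N r : ℕ) : Prop := Inert r ∧ ¬ r ∣ N ∧ ∀ p ∈ splitPart N, IsSquare (p : ZMod r)

/-- the field generated by the square roots of the neutral primes -/
noncomputable def L (N : ℕ) : IntermediateField ℚ ℝ :=
  IntermediateField.adjoin ℚ {z : ℝ | ∃ r : ℕ, Neutral N r ∧ z ^ 2 = r}

open Classical in
/-- the number of the `D ≤ X` of the class with the property `P` -/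
noncomputable def count (P : ℕ → Prop) (X : ℕ) : ℕ := ((Icc 1 X).filter fun D => Class D ∧ P D).card

open Classical in
/-- the number of the `r ≤ X` with the property `P` -/
noncomputable def num (P : ℕ → Prop) (X : ℕ) : ℕ := ((range (X + 1)).filter fun r => P r).card

/-- the number `κ = (1 - 1/2) (1 - 1/8) (1 - 1/32) ⋯` -/
noncomputable def κ : ℝ := ∏' i : ℕ, (1 - (1 / 2 : ℝ) ^ (2 * i + 1))

/-- `K = ℚ(√d_1, …, √d_n)` is of degree `2 ^ n`, and the `d_i` are products of different neutral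
primes -/
def IsSubfield (N : ℕ) {n : ℕ} (d : Fin n → ℕ) (K : Type) [Field K] [NumberField K] : Prop :=
  (∀ i, Squarefree (d i) ∧ ∀ p : ℕ, p.Prime → p ∣ d i → Neutral N p) ∧
    (∀ T : Finset (Fin n), T.Nonempty → ¬ IsSquare (∏ i ∈ T, d i)) ∧
    ∃ x : Fin n → K, (∀ i, x i ^ 2 = (d i : K)) ∧ IntermediateField.adjoin ℚ (Set.range x) = ⊤

/-- the number `q_v` of elements of the residue field of a finite place `v` of `K` -/
noncomputable def qv (K : Type) [Field K] (v : HeightOneSpectrum (𝓞 K)) : ℕ :=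
  Nat.card (𝓞 K ⧸ v.asIdeal)

/-- `a_v = q_v + 1 - #E(k_v)`, that is `q_v` minus the number of the affine points over `k_v` -/
noncomputable def av (K : Type) [Field K] (M : ℤ) (v : HeightOneSpectrum (𝓞 K)) : ℤ :=
  (qv K v : ℤ) - Nat.card {z : (𝓞 K ⧸ v.asIdeal) × (𝓞 K ⧸ v.asIdeal) //
    z.2 ^ 2 = z.1 ^ 3 + (A M : 𝓞 K ⧸ v.asIdeal) * z.1 + (B M : 𝓞 K ⧸ v.asIdeal)}

open Classical in
/-- `F` is entire and is, for `Re s > 3/2`, the L-function of `E_M` over `K` without the Euler factors at
the places `v ∣ 42 M m` -/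
def IsL (K : Type) [Field K] (M m : ℤ) (F : ℂ → ℂ) : Prop :=
  Differentiable ℂ F ∧ ∀ s : ℂ, (3 : ℝ) / 2 < s.re →
    HasProd (fun v : HeightOneSpectrum (𝓞 K) =>
      if ((42 * M * m : ℤ) : 𝓞 K) ∈ v.asIdeal then 1 else
        (1 - (av K M v : ℂ) * (qv K v : ℂ) ^ (-s) + (qv K v : ℂ) ^ (1 - 2 * s))⁻¹) (F s)

/-- Over the field `K = ℚ(√d_1, …, √d_n)`: the group `E_M(K)` has exactly two elements, `L(E_M/K, s)` is
entire and not zero at `s = 1`, and the 2-primary part of `Ш(E_M/K)` is finite and killed by `2 ^ n`. -/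
def Holds {n : ℕ} (d : Fin n → ℕ) (K : Type) [Field K] [NumberField K] (M : ℤ) : Prop :=
  numPoints K M = 2 ∧
  (∃ F : ℂ → ℂ, IsL K M (∏ i, d i : ℕ) F) ∧
  (∀ F : ℂ → ℂ, IsL K M (∏ i, d i : ℕ) F → F 1 ≠ 0) ∧
  {x : Pool.Agent.TH841.NF.D.Sha (E K M) | ∃ t : ℕ, 2 ^ t • x = 0}.Finite ∧
  ∀ (x : Pool.Agent.TH841.NF.D.Sha (E K M)) (t : ℕ), 2 ^ t • x = 0 → 2 ^ n • x = 0

section proof

open Q283.GW Q283.IN
open Q283.J2 (RZ49)
open scoped Classical

lemma class_iff (D : ℕ) : Class D ↔ C4 D := by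
  unfold Class C4 CF
  constructor
  · rintro ⟨h1, h2⟩
    exact ⟨h1, fun p hp => ⟨Nat.prime_of_mem_primeFactors hp,
      h2 p (Nat.prime_of_mem_primeFactors hp) (Nat.dvd_of_mem_primeFactors hp)⟩⟩
  · rintro ⟨h1, h2⟩
    exact ⟨h1, fun p hp hd => (h2 p (Nat.mem_primeFactors.2 ⟨hp, hd, h1.ne_zero⟩)).2⟩

lemma good_eq (D : ℤ) : Good D ↔ RZ49 D := by
  unfold Good RZ49
  refine and_congr Iff.rfl (forall_congr' fun x => ?_)
  rw [two_nsmul]
  rfl

lemma mask {M : ℕ} {m : Fin M → ℕ} (hm : ∀ k, Class (m k)) (hinj : Function.Injective m) :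
    (∀ k, CF (m k).primeFactors) ∧ (∀ k l, k ≠ l → (m k).primeFactors ≠ (m l).primeFactors) ∧
      ∀ k, ((m k : ℕ) : ℤ) = Y687.DD (m k).primeFactors := by
  have h : ∀ k, C4 (m k) := fun k => (class_iff _).1 (hm k)
  refine ⟨fun k => (h k).2, fun k l hkl he => ?_, fun k => (h k).eq⟩
  apply hkl
  apply hinj
  have h1 := (h k).eq
  rw [he, ← (h l).eq] at h1
  exact_mod_cast h1

lemma inert_iff {r : ℕ} : Inert r ↔ (r.Prime ∧ r % 4 = 1 ∧ ¬ ρ49.Φ.A r) := by
  unfold Inert
  constructor
  · rintro ⟨h1, h2, h3⟩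
    refine ⟨h1, h2, fun h => ?_⟩
    have := (A49.1 h).2.2
    omega
  · rintro ⟨h1, h2, h3⟩
    refine ⟨h1, h2, ?_⟩
    rw [A49] at h3
    have h7 : r % 7 ≠ 0 := by
      intro h0
      have h5 : 7 ∣ r := by omega
      have h6 := (Nat.prime_dvd_prime_iff_eq (by norm_num) h1).1 h5
      omega
    have h8 : ¬ (r % 7 = 1 ∨ r % 7 = 2 ∨ r % 7 = 4) := fun h => h3 ⟨h1, h2, h⟩
    omega

lemma split_eq {N : ℕ} (hN : ∀ p ∈ N.primeFactors, p % 4 = 1) :
    splitPart N = PA N.primeFactors := by
  refine PA_eq fun p hp => ⟨Nat.prime_of_mem_primeFactors hp, hN p hp⟩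

lemma neutral_iff {N : ℕ} (hN : ∀ p ∈ N.primeFactors, p % 4 = 1) (r : ℕ) :
    Neutral N r ↔ (r.Prime ∧ r % 4 = 1 ∧ ¬ ρ49.Φ.A r) ∧ ¬ r ∣ N ∧
      ∀ p ∈ PA N.primeFactors, IsSquare (p : ZMod r) := by
  unfold Neutral
  rw [inert_iff, split_eq hN]

lemma primes_N {M : ℕ} {m : Fin M → ℕ} (hm : ∀ k, Class (m k)) {D : ℕ} (hD : Class D) :
    (∏ k, m k) * D ≠ 0 ∧ ∀ p ∈ ((∏ k, m k) * D).primeFactors, p % 4 = 1 := by
  have h0 : (∏ k, m k) * D ≠ 0 := mul_ne_zero (Finset.prod_ne_zero_iff.2 fun k _ =>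
    (hm k).1.ne_zero) hD.1.ne_zero
  refine ⟨h0, fun p hp => ?_⟩
  have hpp := Nat.prime_of_mem_primeFactors hp
  rcases hpp.dvd_mul.1 (Nat.dvd_of_mem_primeFactors hp) with h | h
  · obtain ⟨k, -, hk⟩ := (hpp.prime.dvd_finsetProd_iff _).1 h
    exact (hm k).2 p hpp hk
  · exact hD.2 p hpp h

lemma curve_eq (K : Type) [Field K] (M : ℤ) :
    E K M = Pool.Agent.W307.RS.ShK (-2835 * (M : K) ^ 2) (-71442 * (M : K) ^ 3) := by
  unfold E A B Pool.Agent.W307.RS.ShK
  push_cast
  rfl

lemma num_two {K : Type} [Field K] [CharZero K] {M : ℤ} (hM : M ≠ 0) (h : Two K (M : K)) :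
    numPoints K M = 2 := by
  unfold numPoints
  rw [curve_eq]
  exact card_two (Int.cast_ne_zero.2 hM) h

lemma isL_iff (K : Type) [Field K] [NumberField K] (M m : ℤ) (F : ℂ → ℂ) :
    IsL K M m F ↔ Y19.QT.IsLFunK K (-2835 * M ^ 2) (-71442 * M ^ 3) m F := by
  have key : ∀ v : HeightOneSpectrum (𝓞 K), (((42 * M * m : ℤ) : 𝓞 K) ∈ v.asIdeal ↔
      ((2 * (4 * (-2835 * M ^ 2) ^ 3 + 27 * (-71442 * M ^ 3) ^ 2) * m : ℤ) : 𝓞 K) ∈
        v.asIdeal) := by
    intro v
    have := v.isPrime
    constructor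
    · intro h1
      obtain ⟨z, hz⟩ : ∃ z : ℤ, 2 * (4 * (-2835 * M ^ 2) ^ 3 +
          27 * (-71442 * M ^ 3) ^ 2) * m = z * (42 * M * m) :=
        ⟨2 ^ 8 * 3 ^ 11 * 7 ^ 2 * M ^ 5, by ring⟩
      rw [hz, Int.cast_mul]
      exact Ideal.mul_mem_left _ _ h1
    · intro h1
      obtain ⟨z, hz⟩ : ∃ z : ℤ, (42 * M * m) ^ 15 = z * (2 * (4 * (-2835 * M ^ 2) ^ 3 +
          27 * (-71442 * M ^ 3) ^ 2) * m) :=
        ⟨2 ^ 6 * 3 ^ 3 * 7 ^ 12 * M ^ 9 * m ^ 14, by ring⟩
      refine Ideal.IsPrime.mem_of_pow_mem this 15 ?_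
      rw [← Int.cast_pow, hz, Int.cast_mul]
      exact Ideal.mul_mem_left _ _ h1
  have ha : ∀ v : HeightOneSpectrum (𝓞 K), av K M v =
      Y19.QT.av K (-2835 * M ^ 2) (-71442 * M ^ 3) v := by
    intro v
    unfold av A B
    rfl
  unfold IsL Y19.QT.IsLFunK
  refine and_congr Iff.rfl (forall_congr' fun s => forall_congr' fun _ => ?_)
  refine Iff.of_eq (congrArg (fun f => HasProd f (F s)) (funext fun v => ?_))
  by_cases h : ((42 * M * m : ℤ) : 𝓞 K) ∈ v.asIdeal
  · rw [if_pos h, if_pos ((key v).1 h)]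
  · rw [if_neg h, if_neg (fun h' => h ((key v).2 h')), ha]
    rfl

end proof

/-- **Infinite multiquadratic fields over which twists of `X_0(49)` have two points.** -/
theorem result (M : ℕ) (m : Fin M → ℕ) (hm : ∀ k, Class (m k)) (hinj : Function.Injective m) :
    Tendsto (fun X : ℕ => (count (fun D => ∀ k, Good (m k * D)) X : ℝ) /
      (count (fun _ => True) X : ℝ)) atTop (nhds (κ ^ M)) ∧
    0.4194 < κ ∧ κ < 0.4195 ∧
    ∀ D : ℕ, Class D → (∀ k, Good (m k * D)) →
      Tendsto (fun X : ℕ => (num (Neutral ((∏ k, m k) * D)) X : ℝ) / (num Inert X : ℝ)) atTop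
        (nhds ((1 / 2) ^ (splitPart ((∏ k, m k) * D)).card)) ∧
      ¬ FiniteDimensional ℚ (L ((∏ k, m k) * D)) ∧
      (∀ k, numPoints (L ((∏ k, m k) * D)) (m k * D) = 2) ∧
      ∀ (n : ℕ) (d : Fin n → ℕ) (K : Type) [Field K] [NumberField K],
        IsSubfield ((∏ k, m k) * D) d K → ∀ k, Holds d K (m k * D) := by
  classical
  refine ⟨?_, Pool.Agent.Y948.CQ.t_C2.2.2.2.1, Pool.Agent.Y948.CQ.t_C2.2.2.2.2, fun D hD hG => ?_⟩
  · obtain ⟨h1, h2, h3⟩ := mask hm hinj
    have e1 : ∀ D : ℕ, (Class D ∧ ∀ k, Good (m k * D)) ↔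
        (Q283.GW.C4 D ∧ ∀ k, Q283.J2.RZ49 ((D : ℤ) * Y687.DD (m k).primeFactors)) := by
      intro D
      refine and_congr (class_iff D) (forall_congr' fun k => ?_)
      rw [good_eq, ← h3 k, mul_comm]
    have e2 : ∀ D : ℕ, (Class D ∧ True) ↔ Q283.GW.C4 D := fun D => by
      rw [and_true]
      exact class_iff D
    refine (Q283.GW.prop4 (fun k => (m k).primeFactors) h1 h2).congr fun X => ?_
    exact Q283.GW.ratio (fun D => (e1 D).symm) (fun D => (e2 D).symm) _
  · obtain ⟨hN0, hN⟩ := primes_N hm hD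
    set N := (∏ k, m k) * D with hNdef
    have hdt : ∀ k, Q283.IN.Dt (symmDiff D.primeFactors (m k).primeFactors) ((m k : ℤ) * D)
        (Y687.DD (D.primeFactors ∩ (m k).primeFactors)) (Neutral N) := by
      intro k
      have h := Q283.IN.dt_of ((class_iff _).1 (hm k)) ((class_iff _).1 hD) hN0
        ((Finset.dvd_prod_of_mem m (Finset.mem_univ k)).mul_right D) (Dvd.intro_left _ rfl)
        ((good_eq _).1 (hG k))
      have e : Neutral N = fun r => (r.Prime ∧ r % 4 = 1 ∧ ¬ Q283.GW.ρ49.Φ.A r) ∧ ¬ r ∣ N ∧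
          ∀ p ∈ Q283.GW.PA N.primeFactors, IsSquare (p : ZMod r) := by
        funext r
        exact propext (neutral_iff hN r)
      rw [e]
      exact h
    refine ⟨?_, ?_, fun k => ?_, fun n d K _ _ hK k => ?_⟩
    · have h := Q283.IN.dens hN0 hN
      rw [split_eq hN]
      refine h.congr fun X => ?_
      unfold num
      rw [Q283.IN.cardg (fun r => (neutral_iff hN r).symm), Q283.IN.cardg (fun r => inert_iff.symm)]
    · refine Q283.IN.inf_dim (R := Neutral N) (fun r hr => hr.1.1) ?_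
      have h := Q283.IN.inf_neutral hN0 hN
      refine h.mono fun r hr => (neutral_iff hN r).2 hr
    · refine num_two (hdt k).ne fun X Y hXY => ?_
      apply Subtype.ext
      have h1 := (hdt k).inf (X := X) (Y := Y) X.2 Y.2 (by
        have h2 := congrArg (fun z : L N => (z : ℝ)) hXY
        simp only [IntermediateField.coe_pow, IntermediateField.coe_add,
          IntermediateField.coe_mul] at h2
        push_cast at h2 ⊢
        exact h2)
      rw [h1]
      push_cast
      rfl
    · obtain ⟨hd, hind, x, hx, htop⟩ := hK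
      have hd' : ∀ i, Squarefree (d i) ∧ ∀ p ∈ (d i).primeFactors, Neutral N p := fun i =>
        ⟨(hd i).1, fun p hp => (hd i).2 p (Nat.prime_of_mem_primeFactors hp)
          (Nat.dvd_of_mem_primeFactors hp)⟩
      have hI : Pool.Agent.Y687.MQ.Ind (fun i => (d i : ℤ)) := by
        intro T hT h
        apply hind T hT
        have e : ∏ i ∈ T, (d i : ℤ) = ((∏ i ∈ T, d i : ℕ) : ℤ) := by push_cast; rfl
        rw [e] at h
        obtain ⟨z, hz⟩ := h
        refine ⟨z.natAbs, ?_⟩
        have := congrArg Int.natAbs hz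
        rw [Int.natAbs_natCast, Int.natAbs_mul] at this
        exact this
      have h2 := (hdt k).two hd' hI hx htop
      obtain ⟨⟨⟨F, hF, hF1⟩, -⟩, hF2, hKl⟩   := Q283.IN.field49 (hdt k).ne hI ((hdt k).fam hd') K x
        (fun i => by rw [hx i]; push_cast; rfl) htop
      have hE : E K (m k * D) = Pool.Agent.TH841.NF.EF (-2835 * ((m k : ℤ) * D) ^ 2)
          (-71442 * ((m k : ℤ) * D) ^ 3) K := by
        unfold E A B
        rfl
      have ep : ((∏ i, d i : ℕ) : ℤ) = ∏ i, (d i : ℤ) := by push_cast; rfl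
      refine ⟨num_two (hdt k).ne h2, ⟨F, ?_⟩, fun G hG' => ?_, ?_, ?_⟩
      · rw [ep]
        exact (isL_iff _ _ _ _).2 hF
      · rw [ep] at hG'
        rw [Y687.MQ.isLFunK_unique ((isL_iff _ _ _ _).1 hG') hF]
        exact hF1
      · rw [hE]
        exact hF2
      · rw [hE]
        exact fun x t hx => hKl t x hx

end Pool.Agent.Results.MP_775b3b_nt.InfiniteMultiquadraticFields
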