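import Pool.Agent.Q283.J2.Field

/-!
# Abelian varieties of rank zero: products of twists of two curves which are not isogenous

`E^14_M : y² = x³ + 5805 M² x - 285714 M³` is the quadratic twist by `M` of the curve `X_0(14)`, which
has no complex multiplication, and `E^49_M : y² = x³ - 2835 M² x - 71442 M³` that of the curve
`X_0(49)` with complex multiplication by `ℚ(√-7)`. Let `A` be the product of the curves
`E^{c_i}_{m_i}`, `i = 1, …, g`, an abelian variety over `ℚ` of dimension `g`, and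
`K = ℚ(√d_1, …, √d_n)` a field of degree `2 ^ n` such that the factors of `A` are not isogenous over
`K`. The `D` run over the class of the squarefree positive integers which are squares modulo `7` and
whose prime factors `p` split completely in `ℚ(i, √2, √-7)` or are `5` modulo `8` and inert in
`ℚ(√-7)`; `A_D` is the twist by `D`.

For exactly the proportion `κ ^ (g 2 ^ n)`, `κ = ∏ (1 - 2 ^ (-2 i - 1)) = 0.419…`, of these `D` all the
twists `B` of `A_D` by the quadratic characters of `K` satisfy: `B(ℚ)` is finite and `Ш(B/ℚ)[2] = 0`.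
For these `D` the group `A_D(K)` is finite, the two-primary part of `Ш(A_D/K)` is finite and killed by
`2 ^ n`, `L(A_D/K, s)` is entire and `L(A_D/K, 1) ≠ 0`.
-/

set_option autoImplicit false

open NumberField IsDedekindDomain Filter Topology

namespace Pool.Agent.Results.MP_775b3b_nt.JointLawTwoCurves

/-- the two curves `X_0(14)` and `X_0(49)` -/
inductive Curve
  | X14
  | X49

/-- coefficient of the equation `y² = x³ + A c M x + B c M` of the twist by `M` of the curve `c` -/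
def A : Curve → ℤ → ℤ
  | .X14, M => 5805 * M ^ 2
  | .X49, M => -2835 * M ^ 2

/-- coefficient of the equation `y² = x³ + A c M x + B c M` of the twist by `M` of the curve `c` -/
def B : Curve → ℤ → ℤ
  | .X14, M => -285714 * M ^ 3
  | .X49, M => -71442 * M ^ 3

/-- the twist by `M` of the curve `c`, over the field `K` -/
def E (K : Type) [Field K] (c : Curve) (M : ℤ) : WeierstrassCurve K :=
  { a₁ := 0, a₂ := 0, a₃ := 0, a₄ := (A c M : K), a₆ := (B c M : K) }

/-- the group of the rational points of the twist is finite and its Tate-Shafarevich group over `ℚ` has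
no element of order two -/
def RankZeroShaTwo (c : Curve) (M : ℤ) : Prop :=
  Finite (E ℚ c M).toAffine.Point ∧
    ∀ x : Pool.Agent.TH841.SH.D.Sha (E ℚ c M), 2 • x = 0 → x = 0

/-- primes which split completely in `ℚ(i, √2, √-7)` -/
def Split (p : ℕ) : Prop := p.Prime ∧ p % 8 = 1 ∧ (p % 7 = 1 ∨ p % 7 = 2 ∨ p % 7 = 4)

/-- primes inert in `ℚ(√2)` and in `ℚ(√-7)` -/
def Inert (q : ℕ) : Prop :=
  q.Prime ∧ (q % 8 = 3 ∨ q % 8 = 5) ∧ (q % 7 = 3 ∨ q % 7 = 5 ∨ q % 7 = 6)

/-- the admissible twists. For `X_0(14)`: squarefree `m` of any sign, `≡ 1 mod 4`, squares modulo `7`,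
whose prime factors `p ≠ 3` split completely in `ℚ(i, √2, √-7)` or are inert in `ℚ(√2)` and in
`ℚ(√-7)`. For `X_0(49)`: squarefree `m > 0` whose prime factors split completely in `ℚ(i, √2, √-7)` or
are `≡ 5 mod 8` and inert in `ℚ(√-7)`. -/
def Adm : Curve → ℤ → Prop
  | .X14, m => Squarefree m ∧ m % 4 = 1 ∧ (m % 7 = 1 ∨ m % 7 = 2 ∨ m % 7 = 4) ∧
      ∀ p : ℕ, p.Prime → (p : ℤ) ∣ m → p ≠ 3 ∧ (Split p ∨ Inert p)
  | .X49, m => Squarefree m ∧ 0 < m ∧
      ∀ p : ℕ, p.Prime → (p : ℤ) ∣ m → Split p ∨ (Inert p ∧ p % 8 = 5)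

/-- the class: admissible for both curves -/
def Class (D : ℤ) : Prop := ∀ c : Curve, Adm c D

/-- `K = ℚ(√d_1, …, √d_n)` -/
def IsMultiquadratic {n : ℕ} (d : Fin n → ℤ) (K : Type) [Field K] [NumberField K] : Prop :=
  ∃ x : Fin n → K, (∀ i, x i ^ 2 = (d i : K)) ∧ IntermediateField.adjoin ℚ (Set.range x) = ⊤

/-- For the product of the twists by `m_i D` of the curves `c_i`, `i = 1, …, g`, and for all its twists
by the products of the `d_l`: there are finitely many rational points and no elements of order two in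
the Tate-Shafarevich group over `ℚ`. -/
def Good {g n : ℕ} (c : Fin g → Curve) (m : Fin g → ℤ) (d : Fin n → ℤ) (D : ℤ) : Prop :=
  ∀ (i : Fin g) (T : Finset (Fin n)), RankZeroShaTwo (c i) (m i * D * ∏ l ∈ T, d l)

open Classical in
/-- the proportion of the `D ≤ X` with `P D` among those of the class -/
noncomputable def proportion (P : ℤ → Prop) (X : ℕ) : ℝ :=
  (((Finset.Icc 1 X).filter fun D : ℕ => Class D ∧ P D).card : ℝ) /
    (((Finset.Icc 1 X).filter fun D : ℕ => Class D).card : ℝ)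

/-- the number `κ = (1 - 1/2) (1 - 1/8) (1 - 1/32) ⋯` -/
noncomputable def κ : ℝ := ∏' i : ℕ, (1 - (1 / 2 : ℝ) ^ (2 * i + 1))

/-- the number `q_v` of elements of the residue field of a finite place `v` of `K` -/
noncomputable def qv (K : Type) [Field K] (v : HeightOneSpectrum (𝓞 K)) : ℕ :=
  Nat.card (𝓞 K ⧸ v.asIdeal)

/-- `a_v = q_v + 1 - #E(k_v)`, that is `q_v` minus the number of the affine points over `k_v` -/
noncomputable def av (K : Type) [Field K] (c : Curve) (M : ℤ) (v : HeightOneSpectrum (𝓞 K)) : ℤ :=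
  (qv K v : ℤ) - Nat.card {z : (𝓞 K ⧸ v.asIdeal) × (𝓞 K ⧸ v.asIdeal) //
    z.2 ^ 2 = z.1 ^ 3 + (A c M : 𝓞 K ⧸ v.asIdeal) * z.1 + (B c M : 𝓞 K ⧸ v.asIdeal)}

open Classical in
/-- `F` is entire and is, for `Re s > 3/2`, the L-function over `K` of the twist by `M` of the curve `c`
without the Euler factors at the places `v ∣ 42 M m` -/
def IsL (K : Type) [Field K] (c : Curve) (M m : ℤ) (F : ℂ → ℂ) : Prop :=
  Differentiable ℂ F ∧ ∀ s : ℂ, (3 : ℝ) / 2 < s.re →
    HasProd (fun v : HeightOneSpectrum (𝓞 K) =>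
      if ((42 * M * m : ℤ) : 𝓞 K) ∈ v.asIdeal then 1 else
        (1 - (av K c M v : ℂ) * (qv K v : ℂ) ^ (-s) + (qv K v : ℂ) ^ (1 - 2 * s))⁻¹) (F s)

section proof

open Q283.J2

/-- the names of the curves in the modules -/
def toB : Curve → Bool
  | .X14 => false
  | .X49 => true

lemma toB_inj {c c' : Curve} (h : toB c = toB c') : c = c' := by
  cases c <;> cases c' <;> first | rfl | exact absurd h (by decide)

lemma A_eq (c : Curve) (M : ℤ) : A c M = ca (toB c) * M ^ 2 := by cases c <;> rfl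

lemma B_eq (c : Curve) (M : ℤ) : B c M = cb (toB c) * M ^ 3 := by cases c <;> rfl

lemma rz_eq (c : Curve) (M : ℤ) : RankZeroShaTwo c M ↔ RZ (toB c) M := by
  unfold RankZeroShaTwo RZ E
  rw [A_eq, B_eq]
  refine and_congr Iff.rfl (forall_congr' fun x => ?_)
  rw [two_nsmul]
  rfl

lemma adm_CK {c : Curve} {m : ℤ} (h : Adm c m) : ∃ V, CK (toB c) V ∧ m = Y687.DD V := by
  cases c
  · obtain ⟨h1, h2⟩ := Y687.JQ.of_adm (D := m) h
    exact ⟨_, h1, h2.symm⟩
  · obtain ⟨h1, h2, h3⟩ := h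
    have hCK : CK true m.natAbs.primeFactors := by
      intro p hp
      have hpp := Nat.prime_of_mem_primeFactors hp
      rcases h3 p hpp (Int.natCast_dvd.2 (Nat.dvd_of_mem_primeFactors hp)) with h4 | ⟨h4, h5⟩
      · exact Or.inl h4
      · exact Or.inr ⟨hpp, h5, h4.2.2⟩
    refine ⟨_, hCK, ?_⟩
    rw [DD_true hCK, Nat.prod_primeFactors_of_squarefree (Int.squarefree_natAbs.2 h1)]
    exact (Int.natAbs_of_nonneg h2.le).symm

lemma cls_iff (D : ℕ) : Class D ↔ Cls D := by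
  constructor
  · intro h
    have h14 := h .X14
    have h49 := h .X49
    obtain ⟨h1, -⟩ := Y687.JQ.of_adm (D := (D : ℤ)) h14
    rw [Int.natAbs_natCast] at h1
    have hsq : Squarefree D := Int.squarefree_natCast.1 h14.1
    have hp : ∀ p ∈ D.primeFactors, Split p ∨ (Inert p ∧ p % 8 = 5) := fun p hp =>
      h49.2.2 p (Nat.prime_of_mem_primeFactors hp)
        (Int.natCast_dvd_natCast.2 (Nat.dvd_of_mem_primeFactors hp))
    refine ⟨hsq, fun p hpD => ?_, (Y687.JQ.CL_iff.1 h1).2, ?_⟩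
    · rcases hp p hpD with h4 | ⟨h4, h5⟩
      · exact Or.inl h4
      · refine Or.inr ⟨h4.1, ?_, Finset.mem_singleton.2 h5, h4.2.2⟩
        rintro rfl
        norm_num at h5
    · rw [Finset.filter_eq_empty_iff.2, Finset.card_empty]
      · exact Finset.mem_singleton_self 0
      · intro p hpD h3
        rcases hp p hpD with h4 | ⟨h4, h5⟩
        · have := h4.2.1; omega
        · omega
  · intro h c
    cases c
    · have h1 := Y687.JQ.CL.adm (CK_of_Cl h.2 false)
      rw [← h.eq] at h1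
      exact h1
    · refine ⟨Int.squarefree_natCast.2 h.1, by exact_mod_cast Nat.pos_of_ne_zero h.1.ne_zero,
        fun p hp hd => ?_⟩
      have hpD : p ∈ D.primeFactors := Nat.mem_primeFactors.2
        ⟨hp, Int.natCast_dvd_natCast.1 hd, h.1.ne_zero⟩
      rcases CK_of_Cl h.2 true p hpD with h4 | h4
      · exact Or.inl h4
      · exact Or.inr ⟨⟨h4.1, Or.inr h4.2.1, h4.2.2⟩, h4.2.1⟩

lemma c14 : ca (toB .X14) = 5805 ∧ cb (toB .X14) = -285714 := ⟨rfl, rfl⟩

lemma c49 : ca (toB .X49) = -2835 ∧ cb (toB .X49) = -71442 := ⟨rfl, rfl⟩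

lemma isL_iff (K : Type) [Field K] [NumberField K] (c : Curve) (M m : ℤ) (F : ℂ → ℂ) :
    IsL K c M m F ↔ Y19.QT.IsLFunK K (ca (toB c) * M ^ 2) (cb (toB c) * M ^ 3) m F := by
  have key : ∀ v : HeightOneSpectrum (𝓞 K), (((42 * M * m : ℤ) : 𝓞 K) ∈ v.asIdeal ↔
      ((2 * (4 * (ca (toB c) * M ^ 2) ^ 3 + 27 * (cb (toB c) * M ^ 3) ^ 2) * m : ℤ) : 𝓞 K) ∈
        v.asIdeal) := by
    intro v
    have := v.isPrime
    constructor
    · intro h1
      obtain ⟨z, hz⟩ : ∃ z : ℤ, 2 * (4 * (ca (toB c) * M ^ 2) ^ 3 +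
          27 * (cb (toB c) * M ^ 3) ^ 2) * m = z * (42 * M * m) := by
        cases c
        · exact ⟨2 ^ 14 * 3 ^ 11 * 7 ^ 2 * M ^ 5, by rw [c14.1, c14.2]; ring⟩
        · exact ⟨2 ^ 8 * 3 ^ 11 * 7 ^ 2 * M ^ 5, by rw [c49.1, c49.2]; ring⟩
      rw [hz, Int.cast_mul]
      exact Ideal.mul_mem_left _ _ h1
    · intro h1
      obtain ⟨z, hz⟩ : ∃ z : ℤ, (42 * M * m) ^ 15 = z * (2 * (4 * (ca (toB c) * M ^ 2) ^ 3 +
          27 * (cb (toB c) * M ^ 3) ^ 2) * m) := by
        cases c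
        · exact ⟨3 ^ 3 * 7 ^ 12 * M ^ 9 * m ^ 14, by rw [c14.1, c14.2]; ring⟩
        · exact ⟨2 ^ 6 * 3 ^ 3 * 7 ^ 12 * M ^ 9 * m ^ 14, by rw [c49.1, c49.2]; ring⟩
      refine Ideal.IsPrime.mem_of_pow_mem this 15 ?_
      rw [← Int.cast_pow, hz, Int.cast_mul]
      exact Ideal.mul_mem_left _ _ h1
  have ha : ∀ v : HeightOneSpectrum (𝓞 K), av K c M v =
      Y19.QT.av K (ca (toB c) * M ^ 2) (cb (toB c) * M ^ 3) v := by
    intro v
    unfold av
    rw [A_eq, B_eq]
    rfl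
  unfold IsL Y19.QT.IsLFunK
  refine and_congr Iff.rfl (forall_congr' fun s => forall_congr' fun _ => ?_)
  refine Iff.of_eq (congrArg (fun f => HasProd f (F s)) (funext fun v => ?_))
  by_cases h : ((42 * M * m : ℤ) : 𝓞 K) ∈ v.asIdeal
  · rw [if_pos h, if_pos ((key v).1 h)]
  · rw [if_neg h, if_neg (fun h' => h ((key v).2 h')), ha]
    rfl

end proof

/-- **Products of twists of `X_0(14)` and `X_0(49)`.** -/
theorem result {n : ℕ} (d : Fin n → ℤ)
    (hd : ∀ T : Finset (Fin n), T.Nonempty → ¬ IsSquare (∏ l ∈ T, d l))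
    (hd' : ∀ l, ∃ D k : ℤ, Class D ∧ k ≠ 0 ∧ d l = D * k ^ 2)
    {g : ℕ} (c : Fin g → Curve) (m : Fin g → ℤ) (hm : ∀ i, Adm (c i) (m i))
    (hiso : ∀ i j, i ≠ j → c i = c j → ∀ T : Finset (Fin n),
      ¬ IsSquare (m i * m j * ∏ l ∈ T, d l)) :
    Tendsto (proportion (Good c m d)) atTop (𝓝 (κ ^ (g * 2 ^ n))) ∧
    (∀ D : ℕ, Class D → Good c m d D → ∀ (K : Type) [Field K] [NumberField K],
      IsMultiquadratic d K → Module.finrank ℚ K = 2 ^ n ∧ ∀ i : Fin g,
        Finite (E K (c i) (m i * D)).toAffine.Point ∧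
        {x : Pool.Agent.TH841.NF.D.Sha (E K (c i) (m i * D)) | ∃ r : ℕ, 2 ^ r • x = 0}.Finite ∧
        (∀ (x : Pool.Agent.TH841.NF.D.Sha (E K (c i) (m i * D))) (r : ℕ),
          2 ^ r • x = 0 → 2 ^ n • x = 0) ∧
        (∃ F : ℂ → ℂ, IsL K (c i) (m i * D) (∏ l, d l) F) ∧
        ∀ F : ℂ → ℂ, IsL K (c i) (m i * D) (∏ l, d l) F → F 1 ≠ 0) ∧
    0.4194 < κ ∧ κ < 0.4195 := by
  classical
  have hm' : ∀ i, ∃ V, Q283.J2.CK (toB (c i)) V ∧ m i = Y687.DD V := fun i => adm_CK (hm i)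
  have hdm : ∀ (i : Fin g) (l : Fin n), ∃ (W : Finset ℕ) (k : ℤ), Q283.J2.CK (toB (c i)) W ∧
      k ≠ 0 ∧ d l = Y687.DD W * k ^ 2 := by
    intro i l
    obtain ⟨D, k, h1, h2, h3⟩ := hd' l
    obtain ⟨V, hV, rfl⟩ := adm_CK (h1 (c i))
    exact ⟨V, k, hV, h2, h3⟩
  have hGood : ∀ D : ℤ, Good c m d D ↔ Q283.J2.GoodF (fun i => toB (c i)) m d D := by
    intro D
    unfold Good Q283.J2.GoodF
    simp only [rz_eq]
  refine ⟨?_, fun D hD hG K _ _ ⟨x, hx, hK⟩ => ⟨?_, fun i => ?_⟩, ?_⟩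
  · have h := Q283.J2.prop_field (b := fun i => toB (c i)) hd hm' hdm
      (fun i j hij hb => hiso i j hij (toB_inj hb))
    refine h.congr fun X => ?_
    unfold proportion
    simp only [cls_iff, hGood]
  · have := Y73.QMQ1.gal_of hx hK
    rw [← IsGalois.card_aut_eq_finrank]
    exact Y73.QMQ1.card_gal hd hx hK
  · obtain ⟨⟨⟨F, hF, hF1⟩, hfin⟩, hF2, hKl⟩ := Q283.J2.good_field (b := fun i => toB (c i)) hd hm'
      hdm ((cls_iff D).1 hD) ((hGood D).1 hG) i K x hx hK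
    have hE : E K (c i) (m i * D) = Pool.Agent.TH841.NF.EF (Q283.J2.ca (toB (c i)) * (m i * D) ^ 2)
        (Q283.J2.cb (toB (c i)) * (m i * D) ^ 3) K := by
      unfold E
      rw [A_eq, B_eq]
      rfl
    rw [hE]
    refine ⟨hfin, hF2, fun x r hx => hKl r x hx, ⟨F, (isL_iff _ _ _ _ _).2 hF⟩, fun G hG' => ?_⟩
    rw [Y687.MQ.isLFunK_unique ((isL_iff _ _ _ _ _).1 hG') hF]
    exact hF1
  · exact ⟨Pool.Agent.Y948.CQ.t_C2.2.2.2.1, Pool.Agent.Y948.CQ.t_C2.2.2.2.2⟩

end Pool.Agent.Results.MP_775b3b_nt.JointLawTwoCurves
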